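import Pool.Agent.Results.MP_97d78d_ag.CurveFibrations
import Pool.Agent.R882.UC

/-!
# Iitaka's subadditivity for the images of nondegenerate hypersurfaces fibred by curves

Let `V` be a component of the hypersurface `f = 0` in the torus with the coordinates
`t 1, ..., t n, x, y`, where the Laurent polynomial `f` is nondegenerate in the sense of Khovanskii.
Suppose that `x` and `y` appear in `f` only with exponents `(i, j)` in the trapezoid `T` given by
`0 ≤ j ≤ b`, `0 ≤ i ≤ a + s (b - j)`; the Newton polytope of `f` is arbitrary otherwise. Suppose that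
`t 1, ..., t n, x` are algebraically independent on `V`, and that the generic fibres of the map
`V ⇢ V' = (ℙ ^ 1) ^ n` given by `t` are irreducible; they are curves of arbitrary genus. Suppose that
for all lattice points `(i, j)` in the interior of `T` there is a vector `u i j` over `(i, j)` such
that `u i j` and the `u i j + M e l`, where `e 1, ..., e n` are the unit vectors of the coordinates
`t`, are in the Fine interior of the Newton polytope of `f`. For example, `V` may be a general
hypersurface of multidegree `(e 1, ..., e n, a, b)` in `(ℙ ^ 1) ^ (n + 2)` with `e l ≥ M + 2`.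

Let `V ⇢ W` be any dominant rational map of finite degree (it is not assumed to be related to the
fibration), and let `m` be the degree over `W` of the image `W'` of `V` in `W × V'`.

The theorem is about all fibrations `W → B` (of smooth models; all rational maps `W ⇢ B` to
varieties `B` are allowed), with generic fibre `F`, `0 ≤ dim B ≤ dim W = n + 1`.

* If `m ≤ M + 1`, `κ(B) ≥ 0` and `κ(F) ≥ 0` then `κ(W) ≥ 0`.
* If `2 m ≤ M + 1` then `κ(W) ≥ κ(F) + κ(B)`, or `B` and `F` are both of general type. (In the last
  case `κ(W) = κ(F) + κ(B)` by the theorems of Viehweg or Kollár, which are not formalised. So Iitaka's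
  inequality holds for all fibrations whose total space is birational to `W`.)
* If `2 m ≤ M + 1`, `κ(B) ≥ 0` and the canonical divisor of `F` is pseudo-effective, then
  `κ(W) ≥ dim W - 1`.

Proof. By `MP_97d78d_ag.CurveFibrations` of this team `W` is uniruled or `κ(W) ≥ n` (or `κ(W) ≥ 0`, in
the first part). Suppose that `W` is dominated by the variety with the function field `C(t)`, where
`C(t)` is algebraic over `L = ℂ(W)`, let `E = ℂ(B)`, and let `∂` be the derivation of `C(t)` over `C`
with `∂ t = 1`. If `η` is a nonzero pluricanonical form of `B` then its values on the derivations of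
`C(t)` which preserve `C`, one of them being `∂`, are polynomials in `t` with a zero of order at least
two at infinity, hence zero; so `∂` vanishes on `E`. The same argument for the constants of `∂`, which
contain `E`, over the base field `E`, shows that the canonical divisor of the generic fibre is not
pseudo-effective (`Pool/Agent/R882/UA.lean`, `UB.lean`). So `κ(B) = -∞` or `κ(F) = -∞` if `W` is
uniruled.
-/

set_option autoImplicit false
set_option linter.overlappingInstances false
set_option maxHeartbeats 4000000
set_option synthInstance.maxHeartbeats 400000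

open FF Module Pool.Agent Pool.Agent.W602.GT Pool.Agent.R885

namespace Pool.Agent.Results.MP_f72953_ag.CurveFibrationImages

/-- The Laurent polynomial `f` is nondegenerate: the initial parts `ini v f` have a nonzero
logarithmic gradient at all their zeros in the torus. -/
def Nondegenerate {r : ℕ} (f : (Fin r → ℤ) →₀ ℂ) : Prop :=
  ∀ v : Fin r → ℤ, ∀ c : Fin r → ℂ, (∀ i, c i ≠ 0) → ev c (ini v f) = 0 →
    ∃ i, gr c (ini v f) i ≠ 0

/-- The integral vector `u` is in the Fine interior of the Newton polytope of `f`. -/
def InFine {r : ℕ} (f : (Fin r → ℤ) →₀ ℂ) (u : Fin r → ℤ) : Prop :=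
  ∀ v : Fin r → ℤ, v ≠ 0 → 1 + mn v f ≤ u ⬝ᵥ v

/-- The exponents `(i, j)` of the last two variables in `f` are in the trapezoid `0 ≤ j ≤ b`,
`0 ≤ i ≤ a + s (b - j)`. -/
def InTrapezoid {n : ℕ} (f : (Fin (n + 2) → ℤ) →₀ ℂ) (a s b : ℕ) : Prop :=
  ∀ m ∈ f.support, 0 ≤ m (Fin.last n).castSucc ∧
    m (Fin.last n).castSucc ≤ a + s * (b - m (Fin.last (n + 1))) ∧
    0 ≤ m (Fin.last (n + 1)) ∧ m (Fin.last (n + 1)) ≤ b

/-- The lattice point `(i, j)` is in the interior of the trapezoid. -/
def Interior (a s b i j : ℕ) : Prop := 1 ≤ i ∧ 1 ≤ j ∧ j + 1 ≤ b ∧ i + 1 ≤ a + s * (b - j)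

/-- The Kodaira dimension of the smooth projective varieties of dimension `n` over `k` with the
function field `K` is at least `h`. -/
def KappaGe (k K : Type) [Field k] [Field K] [Algebra k K] (n h : ℕ) : Prop :=
  KodGe k K n (fun _ => False) h

/-- **Subadditivity for images of fibrations by curves.** Let `V` be a component of the zero set of a
nondegenerate Laurent polynomial `f` in the variables `t l`, `x`, `y`, with function field `K` and
generic point `z`, and let the exponents of `x`, `y` be in a trapezoid. Suppose that the `t l` and `x`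
are algebraically independent on `V`, that the generic fibres of the map `V ⇢ V'` given by the `t l`
are irreducible, and that for all lattice points `(i, j)` in the interior of the trapezoid there is a
vector `u i j` over it such that `u i j` and the `u i j + M e l` are in the Fine interior. Let
`V ⇢ W` be a dominant rational map of finite degree, `L` the function field of `W`, and `m` the degree
over `W` of the image of `V` in `W × V'`. Let `W ⇢ B` be a dominant rational map, given by the
subfield `E` of `L`, `d = dim B`, and `F` its generic fibre, a variety of dimension `f'` over `E` with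
the function field `L`.
If `m ≤ M + 1`, `κ(B) ≥ 0` and `κ(F) ≥ 0` then `κ(W) ≥ 0`. If `2 m ≤ M + 1` then
`κ(W) ≥ κ(B) + κ(F)`, or `B` and `F` are both of general type; and if `κ(B) ≥ 0` and `K_F` is
pseudo-effective then `κ(W) ≥ n = dim W - 1`. -/
theorem result {n a s b M : ℕ} (hM : 1 ≤ M) {f : (Fin (n + 2) → ℤ) →₀ ℂ}
    (hf : Nondegenerate f) (hT : InTrapezoid f a s b) {K : Type} [Field K] [Algebra ℂ K]
    {z : Fin (n + 2) → K} (hz : ∀ i, z i ≠ 0) (hfz : ev z f = 0)
    (hgen : IntermediateField.adjoin ℂ (Set.range z) = ⊤) (hK : Algebra.trdeg ℂ K = (n + 1 : ℕ))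
    (hind : AlgebraicIndependent ℂ fun i : Fin (n + 1) => z i.castSucc)
    {t : Fin n → K} (ht : ∀ l, t l = z l.castSucc.castSucc)
    (hcl : ∀ g : K, IsAlgebraic (IntermediateField.adjoin ℂ (Set.range t)) g →
      g ∈ IntermediateField.adjoin ℂ (Set.range t))
    {u : ℕ → ℕ → Fin (n + 2) → ℤ}
    (hu : ∀ i j, Interior a s b i j → u i j (Fin.last n).castSucc = i ∧
      u i j (Fin.last (n + 1)) = j ∧ InFine f (u i j) ∧
      ∀ l : Fin n, InFine f (u i j + (M : ℤ) • Pi.single l.castSucc.castSucc 1))
    (L : Type) [Field L] [Algebra ℂ L] [Algebra L K] [IsScalarTower ℂ L K]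
    [FiniteDimensional L K] (E : IntermediateField ℂ L) [Algebra.EssFiniteType ℂ E] {d f' : ℕ}
    (hd : Algebra.trdeg ℂ E = d) (hf' : Algebra.trdeg E L = f') :
    (Module.finrank L (IntermediateField.adjoin L (Set.range t)) ≤ M + 1 →
      KappaGe ℂ E d 0 → KappaGe E L f' 0 → KappaGe ℂ L (n + 1) 0) ∧
    (2 * Module.finrank L (IntermediateField.adjoin L (Set.range t)) ≤ M + 1 →
      (∀ p q : ℕ, KappaGe ℂ E d p → KappaGe E L f' q →
        KappaGe ℂ L (n + 1) (p + q) ∨ (p = d ∧ q = f')) ∧
      (KappaGe ℂ E d 0 → Psef E L f' (fun _ => False) → KappaGe ℂ L (n + 1) n)) := by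
  classical
  have hess : Algebra.EssFiniteType ℂ K := by
    rw [← IntermediateField.fg_top_iff, ← hgen]
    exact ⟨Finset.univ.image z, by rw [Finset.coe_image, Finset.coe_univ, Set.image_univ]⟩
  have hL : Algebra.trdeg ℂ L = (n + 1 : ℕ) := Pool.Agent.Y184.NT.trdeg_below (K := K) hK
  have hessL : Algebra.EssFiniteType ℂ L := Pool.Agent.TH466.QG.ess_below (K := K)
  obtain ⟨h1, h2⟩ := Pool.Agent.Results.MP_97d78d_ag.CurveFibrations.result hM hf hT hz hfz hgen
    hK hind ht hcl hu L
  have hdf : d + f' = n + 1 := by
    have h3 := trdeg_add_eq ℂ E (A := L)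
    rw [hd, hf', hL] at h3
    exact_mod_cast h3
  have hkey : KappaGe ℂ E d 0 → Psef E L f' (fun _ => False) →
      ¬ Pool.Agent.W619.PQ.IsUniruled ℂ L (n + 1) := fun h3 h4 h5 =>
    Pool.Agent.R882.UA.fib_not hL h5 E hd hf' h3 h4
  refine ⟨fun hm h3 h4 => ?_, fun hm => ⟨fun p q h3 h4 => ?_, fun h3 h4 => ?_⟩⟩
  · have h5 := hkey h3 (psef_of_kodGe h4)
    by_contra h6
    exact h5 (((h1 hm).out 1 3).1 h6)
  · have h3' : KappaGe ℂ E d 0 := Pool.Agent.R882.UA.kod_mono h3 (Nat.zero_le _)
    have h4' := psef_of_kodGe (Pool.Agent.R882.UA.kod_mono h4 (Nat.zero_le _))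
    have h5 := (h2 hm).resolve_left (hkey h3' h4')
    have hp : p ≤ d := Pool.Agent.R882.UA.kod_le_dim hd h3
    have hq : q ≤ f' := Pool.Agent.R882.UA.kod_le_dim hf' h4
    by_cases hpq : p = d ∧ q = f'
    · exact Or.inr hpq
    · left
      exact Pool.Agent.R882.UA.kod_mono h5 (by omega)
  · exact (h2 hm).resolve_left (hkey h3 h4)

end Pool.Agent.Results.MP_f72953_ag.CurveFibrationImages
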