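import Pool.Agent.R882.UD
import Pool.Agent.R882.UC

/-!
# Iitaka's subadditivity for the images of nondegenerate complete intersections fibred by curves of
genus one

Let `V` be a component, of dimension `n + 1`, of the set of common zeros in the torus of a system `f`
of Laurent polynomials which is nondegenerate in the sense of Khovanskii, with arbitrary Newton
polytopes. Let `FineInt f` be the Fine interior of their Minkowski sum, and suppose that the image
of `V` in the torus whose characters are the integral vectors parallel to it has dimension `n`. Let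
`u`, `w 1, ..., w N` be integral vectors such that `u` and the `u + M w j` are in the Fine interior,
and such that the map `V ⇢ V'` given by the monomials `t j = x ^ w j` has an image `V'` of dimension
`n` and irreducible generic fibres; these fibres are curves of genus one. For example, `V` may be a
general hypersurface of multidegree `(2, 2, e 1, ..., e n)` in a product of projective lines,
`e i ≥ M + 2`, or a general complete intersection with `K_V = O(0, m)`, `m ≥ M`, in a product of
projective spaces.

Let `V ⇢ W` be any dominant rational map of finite degree (it is not assumed to be related to the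
fibration), and let `s` be the degree over `W` of the image `W'` of `V` in `W × V'`.

The theorem is about all fibrations `W → B` (of smooth models; all rational maps `W ⇢ B` onto
varieties `B` are allowed), with generic fibre `F`, `0 ≤ dim B ≤ dim W = n + 1`.

* If `s ≤ M + 1`, `κ(B) ≥ 0` and `κ(F) ≥ 0` then `κ(W) ≥ 0`.
* If `2 s ≤ M + 1` then `κ(W) ≥ κ(F) + κ(B)`, or `B` and `F` are both of general type. (In the last
  case the inequality is the theorem of Viehweg or Kollár, which is not formalised. So Iitaka's
  inequality holds for all fibrations whose total space is birational to `W`.)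

Proof. By the proof of `MP_badc2d_ag.EllipticImages` of this team, `W` is uniruled or `κ(W) ≥ n` (or
`κ(W) ≥ 0`, in the first part). If `W` is uniruled then `κ(B) = -∞` or `K_F` is not pseudo-effective,
as in `MP_f72953_ag.CurveFibrationImages` of this team (`Pool/Agent/R882/UA.lean`, `UB.lean`).
-/

set_option autoImplicit false
set_option linter.overlappingInstances false
set_option maxHeartbeats 4000000
set_option synthInstance.maxHeartbeats 400000

open FF Module Pool.Agent Pool.Agent.W602.GT Pool.Agent.R885

namespace Pool.Agent.Results.MP_f72953_ag.EllipticFibrationImages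

/-- The Laurent polynomials `f l` are nondegenerate: the initial parts `ini v (f l)` have linearly
independent logarithmic gradients at all their common zeros in the torus. -/
def Nondegenerate {r q : ℕ} (f : Fin q → (Fin r → ℤ) →₀ ℂ) : Prop :=
  ∀ v : Fin r → ℤ, ∀ c : Fin r → ℂ, (∀ i, c i ≠ 0) → (∀ l, ev c (ini v (f l)) = 0) →
    LinearIndependent ℂ fun l => gr c (ini v (f l))

/-- `x` is the generic point of a subvariety, with function field `K`, of the set of common zeros
of the `f l` in the torus `(ℂ^*) ^ r`. -/
def IsGenericPoint {K : Type} [Field K] [Algebra ℂ K] {r q : ℕ} (f : Fin q → (Fin r → ℤ) →₀ ℂ)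
    (x : Fin r → K) : Prop :=
  (∀ i, x i ≠ 0) ∧ (∀ l, ev x (f l) = 0) ∧ IntermediateField.adjoin ℂ (Set.range x) = ⊤

/-- The integral vector `u` is in the Fine interior. -/
def InFine {r q : ℕ} (f : Fin q → (Fin r → ℤ) →₀ ℂ) (u : Fin r → ℤ) : Prop :=
  (fun i => (u i : ℚ)) ∈ FineInt f

/-- The Kodaira dimension of the smooth projective varieties of dimension `n` over `k` with the
function field `K` is at least `h`. -/
def KappaGe (k K : Type) [Field k] [Field K] [Algebra k K] (n h : ℕ) : Prop :=
  KodGe k K n (fun _ => False) h

/-- **Subadditivity for images of elliptic fibrations.** Let `V` be a component, of dimension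
`n + 1`, of the set of common zeros of a nondegenerate system `f`, with function field `K` and generic
point `x`, and suppose that the image of `V` in the torus of the Fine interior has dimension `n`. Let
`u` and the `u + M w j` be in the Fine interior, let `t j` be the monomial with the exponent `w j`, and
suppose that the map `V ⇢ V'` given by `t` has an image of dimension `n` and irreducible generic
fibres: the field `ℂ(t)` is algebraically closed in `K`. Let `V ⇢ W` be a dominant rational map of
finite degree, `L` the function field of `W`, and `s` the degree over `W` of the image of `V` in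
`W × V'`, whose function field is `L(t)`. Let `W ⇢ B` be a dominant rational map, given by the subfield
`E` of `L`, `d = dim B`, and `F` its generic fibre, a variety of dimension `f'` over `E` with the
function field `L`.
If `s ≤ M + 1`, `κ(B) ≥ 0` and `κ(F) ≥ 0` then `κ(W) ≥ 0`. If `2 s ≤ M + 1` then
`κ(W) ≥ κ(B) + κ(F)`, or `B` and `F` are both of general type. -/
theorem result {n q N M : ℕ} (hM : 1 ≤ M) {f : Fin q → (Fin (n + 1 + q) → ℤ) →₀ ℂ}
    (hf : Nondegenerate f) {K : Type} [Field K] [Algebra ℂ K] {x : Fin (n + 1 + q) → K}
    (hx : IsGenericPoint f x) (hK : Algebra.trdeg ℂ K = (n + 1 : ℕ))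
    (hd : Algebra.trdeg ℂ (IntermediateField.adjoin ℂ {z : K | ∃ v ∈ dirs f, z = R885.mono x v}) =
      (n : ℕ)) {u : Fin (n + 1 + q) → ℤ} {w : Fin N → Fin (n + 1 + q) → ℤ} (hu : InFine f u)
    (hw : ∀ j, InFine f (u + (M : ℤ) • w j)) {t : Fin N → K}
    (ht : ∀ j, t j = R885.mono x (w j))
    (hd' : Algebra.trdeg ℂ (IntermediateField.adjoin ℂ (Set.range t)) = (n : ℕ))
    (hcl : ∀ z : K, IsAlgebraic (IntermediateField.adjoin ℂ (Set.range t)) z →
      z ∈ IntermediateField.adjoin ℂ (Set.range t))
    (L : Type) [Field L] [Algebra ℂ L] [Algebra L K] [IsScalarTower ℂ L K]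
    [FiniteDimensional L K] (E : IntermediateField ℂ L) [Algebra.EssFiniteType ℂ E] {d f' : ℕ}
    (hE : Algebra.trdeg ℂ E = d) (hF : Algebra.trdeg E L = f') :
    (Module.finrank L (IntermediateField.adjoin L (Set.range t)) ≤ M + 1 →
      KappaGe ℂ E d 0 → KappaGe E L f' 0 → KappaGe ℂ L (n + 1) 0) ∧
    (2 * Module.finrank L (IntermediateField.adjoin L (Set.range t)) ≤ M + 1 →
      ∀ p q : ℕ, KappaGe ℂ E d p → KappaGe E L f' q →
        KappaGe ℂ L (n + 1) (p + q) ∨ (p = d ∧ q = f')) := by
  classical
  have hess : Algebra.EssFiniteType ℂ K := by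
    rw [← IntermediateField.fg_top_iff, ← hx.2.2]
    exact ⟨Finset.univ.image x, by rw [Finset.coe_image, Finset.coe_univ, Set.image_univ]⟩
  have hL : Algebra.trdeg ℂ L = (n + 1 : ℕ) := Pool.Agent.Y184.NT.trdeg_below (K := K) hK
  have hessL : Algebra.EssFiniteType ℂ L := Pool.Agent.TH466.QG.ess_below (K := K)
  obtain ⟨h1, h2⟩ := Pool.Agent.R882.UD.elliptic_kod hM hf hx hK hd hu hw ht hd' hcl L
  have hdf : d + f' = n + 1 := by
    have h3 := trdeg_add_eq ℂ E (A := L)
    rw [hE, hF, hL] at h3
    exact_mod_cast h3
  have hkey : KappaGe ℂ E d 0 → Psef E L f' (fun _ => False) →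
      ¬ Pool.Agent.W619.PQ.IsUniruled ℂ L (n + 1) := fun h3 h4 h5 =>
    Pool.Agent.R882.UA.fib_not hL h5 E hE hF h3 h4
  refine ⟨fun hm h3 h4 => (h1 hm).resolve_left (hkey h3 (psef_of_kodGe h4)),
    fun hm p q h3 h4 => ?_⟩
  have h3' : KappaGe ℂ E d 0 := Pool.Agent.R882.UA.kod_mono h3 (Nat.zero_le _)
  have h4' := psef_of_kodGe (Pool.Agent.R882.UA.kod_mono h4 (Nat.zero_le _))
  have h5 := (h2 hm).resolve_left (hkey h3' h4')
  have hp : p ≤ d := Pool.Agent.R882.UA.kod_le_dim hE h3
  have hq : q ≤ f' := Pool.Agent.R882.UA.kod_le_dim hF h4
  by_cases hpq : p = d ∧ q = f'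
  · exact Or.inr hpq
  · left
    exact Pool.Agent.R882.UA.kod_mono h5 (by omega)

end Pool.Agent.Results.MP_f72953_ag.EllipticFibrationImages
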